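import Mathlib

/-!
# Concentration of sums of independent random integers: separated scales
-/

set_option autoImplicit false

open scoped Classical

namespace Pool.Agent.J4H77.PC

open Finset

section one

variable {ι : Type} [Fintype ι] [DecidableEq ι]

/-- the indicator of a statement -/
noncomputable def ch (P : Prop) : ℝ := if P then 1 else 0

theorem ch_pos {P : Prop} (h : P) : ch P = 1 := if_pos h

theorem ch_neg {P : Prop} (h : ¬ P) : ch P = 0 := if_neg h

theorem ch_mono {P Q : Prop} (h : P → Q) : ch P ≤ ch Q := by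
  by_cases h1 : P
  · rw [ch_pos h1, ch_pos (h h1)]
  · rw [ch_neg h1]
    unfold ch
    split_ifs <;> norm_num

/-- the expectation of `G` for independent random integers `x j ∈ s j` with the laws `p j` -/
noncomputable def Ex (s : ι → Finset ℤ) (p : ι → ℤ → ℝ) (G : (ι → ℤ) → ℝ) : ℝ :=
  ∑ x ∈ Fintype.piFinset s, (∏ j, p j (x j)) * G x

theorem prod_swap (p : ι → ℤ → ℝ) (x : ι → ℤ) (t : ι) (a : ℤ) :
    (∏ j, p j (x j)) * p t a = (∏ j, p j (Function.update x t a j)) * p t (x t) := by
  rw [← mul_prod_erase univ (fun j => p j (x j)) (mem_univ t),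
    ← mul_prod_erase univ (fun j => p j (Function.update x t a j)) (mem_univ t)]
  have h : ∏ j ∈ univ.erase t, p j (Function.update x t a j) = ∏ j ∈ univ.erase t, p j (x j) :=
    prod_congr rfl fun j hj => by rw [Function.update_of_ne (ne_of_mem_erase hj)]
  rw [h, Function.update_self]
  ring

/-- a coordinate may be sampled again -/
theorem resample (s : ι → Finset ℤ) (p : ι → ℤ → ℝ) (h1 : ∀ j, ∑ a ∈ s j, p j a = 1) (t : ι)
    (G : (ι → ℤ) → ℝ) :
    Ex s p G = Ex s p fun x => ∑ a ∈ s t, p t a * G (Function.update x t a) := by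
  have e1 : Ex s p (fun x => ∑ a ∈ s t, p t a * G (Function.update x t a)) =
      ∑ z ∈ Fintype.piFinset s ×ˢ s t, (∏ j, p j (z.1 j)) * p t z.2 *
        G (Function.update z.1 t z.2) := by
    unfold Ex
    rw [sum_product]
    refine sum_congr rfl fun x _ => ?_
    rw [mul_sum]
    exact sum_congr rfl fun a _ => by ring
  have e2 : Ex s p G = ∑ z ∈ Fintype.piFinset s ×ˢ s t, (∏ j, p j (z.1 j)) * p t z.2 * G z.1 := by
    unfold Ex
    rw [sum_product]
    refine sum_congr rfl fun x _ => ?_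
    have h2 : ∀ a, (∏ j, p j (x j)) * p t a * G x = (∏ j, p j (x j)) * G x * p t a :=
      fun a => by ring
    simp only [h2]
    rw [← mul_sum, h1, mul_one]
  rw [e1, e2]
  refine sum_nbij' (fun z => (Function.update z.1 t z.2, z.1 t))
    (fun z => (Function.update z.1 t z.2, z.1 t)) ?_ ?_ ?_ ?_ ?_
  · rintro ⟨x, a⟩ hz
    rw [mem_product, Fintype.mem_piFinset] at hz ⊢
    refine ⟨fun j => ?_, hz.1 t⟩
    by_cases h : j = t
    · subst h
      simpa using hz.2
    · simp only
      rw [Function.update_of_ne h]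
      exact hz.1 j
  · rintro ⟨x, a⟩ hz
    rw [mem_product, Fintype.mem_piFinset] at hz ⊢
    refine ⟨fun j => ?_, hz.1 t⟩
    by_cases h : j = t
    · subst h
      simpa using hz.2
    · simp only
      rw [Function.update_of_ne h]
      exact hz.1 j
  · rintro ⟨x, a⟩ _
    simp
  · rintro ⟨x, a⟩ _
    simp
  · rintro ⟨x, a⟩ _
    simp only [Function.update_self, Function.update_idem, Function.update_eq_self]
    rw [prod_swap p x t a]

theorem Ex_mono {s : ι → Finset ℤ} {p : ι → ℤ → ℝ} (h0 : ∀ j, ∀ a ∈ s j, 0 ≤ p j a)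
    {G H : (ι → ℤ) → ℝ} (h : ∀ x ∈ Fintype.piFinset s, G x ≤ H x) : Ex s p G ≤ Ex s p H := by
  unfold Ex
  refine sum_le_sum fun x hx => mul_le_mul_of_nonneg_left (h x hx) (prod_nonneg fun j _ => ?_)
  exact h0 j _ (Fintype.mem_piFinset.1 hx j)

theorem Ex_one {s : ι → Finset ℤ} {p : ι → ℤ → ℝ} (h1 : ∀ j, ∑ a ∈ s j, p j a = 1) :
    Ex s p (fun _ => 1) = 1 := by
  unfold Ex
  simp only [mul_one]
  rw [← prod_univ_sum]
  exact prod_eq_one fun j _ => h1 j

/-- a condition on one more coordinate -/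
theorem one_coord {s : ι → Finset ℤ} {p : ι → ℤ → ℝ} (h0 : ∀ j, ∀ a ∈ s j, 0 ≤ p j a)
    (h1 : ∀ j, ∑ a ∈ s j, p j a = 1) (t : ι) {A : (ι → ℤ) → Prop} {I : (ι → ℤ) → ℤ → Prop}
    (hA : ∀ x a, A (Function.update x t a) ↔ A x)
    (hI : ∀ x a b, I (Function.update x t a) b ↔ I x b) {q : ℝ}
    (hq : ∀ x, ∑ a ∈ (s t).filter (I x), p t a ≤ q) :
    Ex s p (fun x => ch (A x ∧ I x (x t))) ≤ q * Ex s p (fun x => ch (A x)) := by
  rw [resample s p h1 t]
  have e1 : q * Ex s p (fun x => ch (A x)) = Ex s p (fun x => q * ch (A x)) := by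
    unfold Ex
    rw [mul_sum]
    exact sum_congr rfl fun x _ => by ring
  rw [e1]
  refine Ex_mono h0 fun x _ => ?_
  by_cases ha : A x
  · rw [ch_pos ha, mul_one]
    refine le_trans (le_of_eq ?_) (hq x)
    rw [sum_filter]
    refine sum_congr rfl fun a _ => ?_
    by_cases hi : I x a
    · rw [ch_pos ⟨(hA x a).2 ha, by rw [Function.update_self]; exact (hI x a a).2 hi⟩, if_pos hi,
        mul_one]
    · rw [ch_neg, if_neg hi, mul_zero]
      rintro ⟨-, h⟩
      rw [Function.update_self] at h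
      exact hi ((hI x a a).1 h)
  · rw [ch_neg ha, mul_zero]
    refine le_of_eq (sum_eq_zero fun a _ => ?_)
    rw [ch_neg fun h => ha ((hA x a).1 h.1), mul_zero]

end one

/-- **concentration over separated scales** -/
theorem conc {k : ℕ} {s : Fin k → Finset ℤ} {p : Fin k → ℤ → ℝ}
    (h0 : ∀ j, ∀ a ∈ s j, 0 ≤ p j a) (h1 : ∀ j, ∑ a ∈ s j, p j a = 1) {M : Fin k → ℤ}
    (hM : ∀ j, ∀ a ∈ s j, |a| ≤ M j) {W : Fin k → ℤ} {q : ℝ} (hq0 : 0 ≤ q) (R : ℤ) :
    ∀ T : Finset (Fin k), (∀ t ∈ T, ∀ y : ℤ, ∑ a ∈ (s t).filter (fun a => |y + a| ≤ W t), p t a ≤ q) →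
      (∀ t ∈ T, R + ∑ u ∈ T.filter (fun u => u < t), M u ≤ W t) →
      ∀ (c : (Fin k → ℤ) → ℤ) (A : (Fin k → ℤ) → Prop),
        (∀ x, ∀ t ∈ T, ∀ a, c (Function.update x t a) = c x) →
        (∀ x, ∀ t ∈ T, ∀ a, A (Function.update x t a) ↔ A x) →
        Ex s p (fun x => ch (A x ∧ |c x + ∑ t ∈ T, x t| ≤ R)) ≤
          q ^ T.card * Ex s p (fun x => ch (A x)) := by
  intro T
  induction T using Finset.induction_on_max with
  | empty =>
    intro _ _ c A _ _
    rw [card_empty, pow_zero, one_mul]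
    exact Ex_mono h0 fun x _ => ch_mono fun h => h.1
  | insert t T hT ih =>
    intro hq hW c A hc hA
    have htT : t ∉ T := fun h => lt_irrefl t (hT t h)
    have hlow : (insert t T).filter (fun u => u < t) = T := by
      ext u
      rw [mem_filter, mem_insert]
      constructor
      · rintro ⟨rfl | h, h'⟩
        · exact absurd h' (lt_irrefl _)
        · exact h
      · intro h
        exact ⟨Or.inr h, hT u h⟩
    have hWt := hW t (mem_insert_self t T)
    rw [hlow] at hWt
    have key := ih (fun u hu => hq u (mem_insert_of_mem hu)) (fun u hu => by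
        refine le_trans ?_ (hW u (mem_insert_of_mem hu))
        have h2 : (insert t T).filter (fun v => v < u) = T.filter (fun v => v < u) := by
          rw [filter_insert, if_neg (not_lt.2 (hT u hu).le)]
        rw [h2])
      (fun x => c x + x t) (fun x => A x ∧ |c x + x t| ≤ W t) (fun x u hu a => by
        have hut : t ≠ u := fun h => htT (h ▸ hu)
        rw [hc x u (mem_insert_of_mem hu) a, Function.update_of_ne hut]) (fun x u hu a => by
        have hut : t ≠ u := fun h => htT (h ▸ hu)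
        rw [hc x u (mem_insert_of_mem hu) a, Function.update_of_ne hut,
          hA x u (mem_insert_of_mem hu) a])
    have h2 : Ex s p (fun x => ch (A x ∧ |c x + ∑ u ∈ insert t T, x u| ≤ R)) ≤
        Ex s p (fun x => ch ((A x ∧ |c x + x t| ≤ W t) ∧ |(c x + x t) + ∑ u ∈ T, x u| ≤ R)) := by
      refine Ex_mono h0 fun x hx => ch_mono fun h3 => ?_
      rw [sum_insert htT] at h3
      refine ⟨⟨h3.1, ?_⟩, by rw [add_assoc]; exact h3.2⟩
      have h4 : |∑ u ∈ T, x u| ≤ ∑ u ∈ T, M u :=
        (abs_sum_le_sum_abs _ _).trans (sum_le_sum fun u _ =>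
          hM u _ (Fintype.mem_piFinset.1 hx u))
      have h5 : c x + x t = (c x + (x t + ∑ u ∈ T, x u)) - ∑ u ∈ T, x u := by ring
      rw [h5]
      exact (abs_sub _ _).trans ((add_le_add h3.2 h4).trans hWt)
    have h6 : Ex s p (fun x => ch (A x ∧ |c x + x t| ≤ W t)) ≤
        q * Ex s p (fun x => ch (A x)) := by
      refine one_coord h0 h1 t (A := A) (I := fun x b => |c x + b| ≤ W t)
        (fun x a => hA x t (mem_insert_self t T) a) (fun x a b => ?_) (fun x => ?_)
      · rw [hc x t (mem_insert_self t T) a]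
      · have h7 := hq t (mem_insert_self t T) (c x)
        convert h7
    rw [card_insert_of_notMem htT, pow_succ, mul_assoc]
    exact h2.trans (key.trans (mul_le_mul_of_nonneg_left h6 (pow_nonneg hq0 _)))

end Pool.Agent.J4H77.PC
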