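import Pool.Agent.J4H77.PC.Conc

/-!
# Sums of independent random integers avoid the neighbourhoods of sparse sets
-/

set_option autoImplicit false

namespace Pool.Agent.J4H77.PC

open Finset

theorem dig_sum (b k n : ℕ) : ∑ j : Fin k, (n / b ^ (j : ℕ) % b) * b ^ (j : ℕ) = n % b ^ k := by
  induction k with
  | zero => simp [Nat.mod_one]
  | succ k ih =>
    rw [Fin.sum_univ_castSucc]
    simp only [Fin.val_castSucc, Fin.val_last]
    rw [ih, Nat.mod_pow_succ]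
    ring

open Classical in
/-- from random sums to integers with restricted and prescribed digits, for an arbitrary event -/
theorem digits_of (b : ℕ) (hb : 2 ≤ b) (k : ℕ) (β : ℝ) (E : ℤ → Prop) (J : Finset ℕ)
    (hrs : ∀ (s : ℕ → Finset ℤ) (p : ℕ → ℤ → ℝ),
    (∀ j < k, (∀ x ∈ s j, 0 ≤ p j x ∧ |x| ≤ (b : ℤ) * (b : ℤ) ^ j) ∧ ∑ x ∈ s j, p j x = 1) →
    (∀ j ∈ J, ∀ y : ℤ, ∑ x ∈ s j, (if y ≤ x ∧ (b : ℤ) * (x - y) ≤ (b : ℤ) ^ j then p j x else 0) ≤ 1 - 1 / 2) →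
    ∑ ω ∈ Fintype.piFinset (fun j : Fin k => s j), (if E (∑ j : Fin k, ω j) then ∏ j : Fin k, p j (ω j) else 0) ≤
      β)
    (A : ℕ → Finset ℕ) (hA : ∀ j < k, (A j).Nonempty ∧ ∀ a ∈ A j, a < b) (hAJ : ∀ j ∈ J, 2 ≤ (A j).card) :
    (((range (b ^ k)).filter (fun n : ℕ => (∀ j < k, n / b ^ j % b ∈ A j) ∧ E n)).card : ℝ) ≤
      (∏ j ∈ range k, ((A j).card : ℝ)) * β := by
  have hb0 : 0 < b := by omega
  obtain ⟨s, hs⟩ : ∃ s : ℕ → Finset ℤ, s = fun j => (A j).image (fun a : ℕ => (a : ℤ) * (b : ℤ) ^ j) := ⟨_, rfl⟩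
  obtain ⟨p, hp⟩ : ∃ p : ℕ → ℤ → ℝ, p = fun j _ => 1 / ((A j).card : ℝ) := ⟨_, rfl⟩
  have hbz : ∀ j : ℕ, (0 : ℤ) < (b : ℤ) ^ j := fun j => by positivity
  have hinj : ∀ j : ℕ, Function.Injective (fun a : ℕ => (a : ℤ) * (b : ℤ) ^ j) := by
    intro j x y hxy
    have := mul_right_cancel₀ (hbz j).ne' hxy
    exact_mod_cast this
  have hA0 : ∀ j < k, (0 : ℝ) < (A j).card := fun j hj => by exact_mod_cast card_pos.2 (hA j hj).1
  have hmain := hrs s p (by
      intro j hj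
      constructor
      · intro x hx
        rw [hp]
        refine ⟨by positivity, ?_⟩
        rw [hs] at hx
        obtain ⟨a, ha, rfl⟩ := mem_image.1 hx
        have h1 := (hA j hj).2 a ha
        rw [abs_of_nonneg (by positivity)]
        apply mul_le_mul_of_nonneg_right _ (by positivity)
        exact_mod_cast h1.le
      · rw [hs, hp]
        simp only
        rw [sum_image (fun x _ y _ h => hinj j h), sum_const, nsmul_eq_mul]
        have := hA0 j hj
        field_simp) (by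
      intro j hj y
      have h2 : (2 : ℝ) ≤ (A j).card := by exact_mod_cast hAJ j hj
      rw [hs, hp]
      simp only
      rw [← sum_filter, sum_const, nsmul_eq_mul]
      have h3 : (((A j).image (fun a : ℕ => (a : ℤ) * (b : ℤ) ^ j)).filter (fun x => y ≤ x ∧ (b : ℤ) * (x - y) ≤ (b : ℤ) ^ j)).card ≤ 1 := by
        rw [card_le_one]
        intro x hx x' hx'
        rw [mem_filter] at hx hx'
        obtain ⟨a, _, rfl⟩ := mem_image.1 hx.1
        obtain ⟨a', _, rfl⟩ := mem_image.1 hx'.1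
        have hbj := hbz j
        have h2b : (2 : ℤ) ≤ b := by exact_mod_cast hb
        have key : ∀ u v : ℕ, y ≤ (u : ℤ) * (b : ℤ) ^ j → (b : ℤ) * ((v : ℤ) * (b : ℤ) ^ j - y) ≤ (b : ℤ) ^ j → v ≤ u := by
          intro u v h4 h5
          by_contra hcon
          push Not at hcon
          have h6 : (u : ℤ) + 1 ≤ v := by exact_mod_cast hcon
          have h7 : ((u : ℤ) + 1) * (b : ℤ) ^ j ≤ v * (b : ℤ) ^ j := mul_le_mul_of_nonneg_right h6 hbj.le
          have h8 : (b : ℤ) ^ j ≤ (v : ℤ) * (b : ℤ) ^ j - y := by linarith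
          have h9 : (b : ℤ) * (b : ℤ) ^ j ≤ (b : ℤ) * ((v : ℤ) * (b : ℤ) ^ j - y) := mul_le_mul_of_nonneg_left h8 (by positivity)
          nlinarith
        have h4 := key a a' hx.2.1 hx'.2.2
        have h5 := key a' a hx'.2.1 hx.2.2
        rw [le_antisymm h4 h5]
      have h4 : ((((A j).image (fun a : ℕ => (a : ℤ) * (b : ℤ) ^ j)).filter (fun x => y ≤ x ∧ (b : ℤ) * (x - y) ≤ (b : ℤ) ^ j)).card : ℝ) ≤ 1 := by
        exact_mod_cast h3
      have h5 : 1 / ((A j).card : ℝ) ≤ 1 / 2 := one_div_le_one_div_of_le (by norm_num) h2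
      have h6 : 0 ≤ 1 / ((A j).card : ℝ) := by positivity
      nlinarith)
  -- from the integers to the digits
  obtain ⟨Q, hQ⟩ : ∃ Q, Q = (range (b ^ k)).filter (fun n : ℕ => (∀ j < k, n / b ^ j % b ∈ A j) ∧ E n) := ⟨_, rfl⟩
  rw [← hQ]
  obtain ⟨φ, hφ⟩ : ∃ φ : ℕ → (Fin k → ℤ), φ = fun (n : ℕ) (j : Fin k) => ((n / b ^ (j : ℕ) % b : ℕ) : ℤ) * (b : ℤ) ^ (j : ℕ) := ⟨_, rfl⟩
  have hφs : ∀ n < b ^ k, ∑ j : Fin k, φ n j = (n : ℤ) := by
    intro n hn
    have h1 := dig_sum b k n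
    rw [Nat.mod_eq_of_lt hn] at h1
    rw [hφ]
    simp only
    exact_mod_cast h1
  have hpr : ∀ ω : Fin k → ℤ, ∏ j : Fin k, p j (ω j) = 1 / ∏ j ∈ range k, ((A j).card : ℝ) := by
    intro ω
    rw [hp]
    simp only
    rw [Fin.prod_univ_eq_prod_range (fun j => 1 / ((A j).card : ℝ)) k]
    simp only [one_div, prod_inv_distrib]
  have hP0 : 0 < ∏ j ∈ range k, ((A j).card : ℝ) := prod_pos fun j hj => hA0 j (mem_range.1 hj)
  have h1 : (Q.card : ℝ) * (1 / ∏ j ∈ range k, ((A j).card : ℝ)) ≤ β := by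
    refine le_trans ?_ hmain
    rw [← nsmul_eq_mul, ← sum_const]
    have h2 : ∑ n ∈ Q, (1 / ∏ j ∈ range k, ((A j).card : ℝ)) = ∑ ω ∈ Q.image φ, (if E (∑ j : Fin k, ω j)
        then ∏ j : Fin k, p j (ω j) else 0) := by
      rw [sum_image]
      · apply sum_congr rfl
        intro n hn
        rw [hQ, mem_filter, mem_range] at hn
        rw [hφs n hn.1, if_pos hn.2.2, hpr]
      · intro n hn n' hn' heq
        rw [mem_coe, hQ, mem_filter, mem_range] at hn hn'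
        have h3 := hφs n hn.1
        rw [heq, hφs n' hn'.1] at h3
        exact_mod_cast h3.symm
    rw [h2]
    apply sum_le_sum_of_subset_of_nonneg
    · intro ω hω
      obtain ⟨n, hn, rfl⟩ := mem_image.1 hω
      rw [hQ, mem_filter, mem_range] at hn
      rw [Fintype.mem_piFinset]
      intro j
      rw [hs, hφ]
      exact mem_image.2 ⟨n / b ^ (j : ℕ) % b, hn.2.1 j j.2, rfl⟩
    · intro ω _ _
      split_ifs
      · rw [hpr]; positivity
      · exact le_rfl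
  rw [mul_one_div, div_le_iff₀ hP0] at h1
  rw [mul_comm]
  exact h1

open Classical in
/-- a set of separated scales -/
theorem exists_sep {k g r : ℕ} (hg : 1 ≤ g) (J : Finset ℕ) (hJ : ∀ j ∈ J, j < k) :
    ∃ T : Finset (Fin k), (∀ t ∈ T, (t : ℕ) ∈ J ∧ r ≤ (t : ℕ)) ∧
      (∀ t ∈ T, ∀ u ∈ T, u < t → (u : ℕ) + g ≤ t) ∧ (J.card : ℝ) - r ≤ g * T.card := by
  set J' := J.filter fun j => r ≤ j with hJ'
  have h1 : (J.card : ℝ) - r ≤ J'.card := by
    have h2 := Finset.card_filter_add_card_filter_not (s := J) fun j => r ≤ j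
    have h3 : (J.filter fun j => ¬ r ≤ j).card ≤ r := by
      have h4 : (J.filter fun j => ¬ r ≤ j) ⊆ range r := by
        intro j hj
        rw [mem_range]
        exact not_le.1 (mem_filter.1 hj).2
      exact (card_le_card h4).trans (by rw [card_range])
    have h5 : (J.card : ℝ) ≤ J'.card + r := by
      have h6 : J.card ≤ J'.card + r := by rw [hJ']; omega
      exact_mod_cast h6
    linarith
  have h2 : J'.card = ∑ ρ ∈ range g, (J'.filter fun j => j % g = ρ).card :=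
    card_eq_sum_card_fiberwise fun j _ => mem_coe.2 (mem_range.2 (Nat.mod_lt _ (by omega)))
  obtain ⟨ρ, hρ, h3⟩ : ∃ ρ ∈ range g, (J'.card : ℝ) / g ≤ ((J'.filter fun j => j % g = ρ).card : ℝ) := by
    refine Finset.exists_le_of_sum_le ⟨0, mem_range.2 (by omega)⟩ ?_
    rw [sum_const, card_range, nsmul_eq_mul]
    have hg0 : (g : ℝ) ≠ 0 := by positivity
    rw [mul_div_cancel₀ _ hg0, h2]
    push_cast
    exact le_rfl
  set S := J'.filter fun j => j % g = ρ with hS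
  have hSk : ∀ j ∈ S, j < k := fun j hj => hJ j (mem_filter.1 (mem_filter.1 hj).1).1
  set T : Finset (Fin k) := univ.filter fun t => (t : ℕ) ∈ S with hT
  have hTS : T.card = S.card := by
    rw [← card_map Fin.valEmbedding]
    congr 1
    ext j
    rw [mem_map]
    constructor
    · rintro ⟨t, ht, rfl⟩
      exact (mem_filter.1 ht).2
    · intro hj
      exact ⟨⟨j, hSk j hj⟩, mem_filter.2 ⟨mem_univ _, hj⟩, rfl⟩
  refine ⟨T, fun t ht => ?_, fun t ht u hu hut => ?_, ?_⟩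
  · have h4 := (mem_filter.1 (mem_filter.1 (mem_filter.1 ht).2).1)
    exact ⟨h4.1, h4.2⟩
  · have h4 := (mem_filter.1 (mem_filter.1 ht).2).2
    have h5 := (mem_filter.1 (mem_filter.1 hu).2).2
    have h6 : (u : ℕ) < t := hut
    have h7 : (u : ℕ) ≡ t [MOD g] := by
      unfold Nat.ModEq
      rw [h4, h5]
    have h8 := (Nat.modEq_iff_dvd' h6.le).1 h7
    have h9 := Nat.le_of_dvd (by omega) h8
    omega
  · rw [hTS]
    have hg0 : (0 : ℝ) < g := by positivity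
    rw [div_le_iff₀ hg0] at h3
    linarith

open Classical in
/-- one point -/
theorem one_point {b B k r : ℕ} (hb : 2 ≤ b) (hB : 1 ≤ B) {η : ℝ} (hη : 0 ≤ η) {J : Finset ℕ}
    (hJ : ∀ j ∈ J, j < k) {s : ℕ → Finset ℤ} {p : ℕ → ℤ → ℝ}
    (hs : ∀ j < k, (∀ x ∈ s j, 0 ≤ p j x ∧ |x| ≤ (B : ℤ) * (b : ℤ) ^ j) ∧ ∑ x ∈ s j, p j x = 1)
    (hp : ∀ j ∈ J, ∀ y : ℤ,
      ∑ x ∈ s j, (if y ≤ x ∧ (B : ℤ) * (x - y) ≤ (b : ℤ) ^ j then p j x else 0) ≤ 1 - η) (z : ℤ) :
    Ex (fun j : Fin k => s j) (fun j : Fin k => p j)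
      (fun x => ch (|z + ∑ j, x j| ≤ (b : ℤ) ^ r)) ≤
      Real.exp (-(η * (((J.card : ℝ) - r) / (4 * B ^ 2 + 1) - 1))) := by
  set g : ℕ := 4 * B ^ 2 + 1 with hg
  have hbz : (2 : ℤ) ≤ b := by exact_mod_cast hb
  have hBz : (1 : ℤ) ≤ B := by exact_mod_cast hB
  have hbg : 4 * B ^ 2 * b ≤ b ^ g := by
    have h1 : 4 * B ^ 2 ≤ b ^ (4 * B ^ 2) :=
      (Nat.lt_pow_self (by omega : 1 < b)).le
    rw [hg, pow_succ]
    exact Nat.mul_le_mul_right b h1
  obtain ⟨T, hT1, hT2, hT3⟩ := exists_sep (r := r + g) (g := g) (by omega) J hJ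
  have h0' : ∀ j : Fin k, ∀ a ∈ s j, 0 ≤ p j a := fun j a ha => ((hs j j.2).1 a ha).1
  have h1' : ∀ j : Fin k, ∑ a ∈ s j, p j a = 1 := fun j => (hs j j.2).2
  have key := conc (k := k) (s := fun j : Fin k => s j) (p := fun j : Fin k => p j) h0' h1'
    (M := fun j => (B : ℤ) * (b : ℤ) ^ (j : ℕ)) (fun j a ha => ((hs j j.2).1 a ha).2)
    (W := fun j => (b : ℤ) ^ (j : ℕ) / (2 * B)) (q := Real.exp (-η)) (Real.exp_pos _).le
    ((b : ℤ) ^ r) T (fun t ht y => ?_) (fun t ht => ?_)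
    (fun x => z + ∑ j ∈ univ \ T, x j) (fun _ => True) (fun x t ht a => ?_) (fun _ _ _ _ => Iff.rfl)
  · have h2 : (fun x : Fin k → ℤ => ch (True ∧ |z + ∑ j ∈ univ \ T, x j + ∑ t ∈ T, x t| ≤ (b : ℤ) ^ r)) =
        fun x => ch (|z + ∑ j, x j| ≤ (b : ℤ) ^ r) := by
      funext x
      rw [true_and, add_assoc, sum_sdiff (subset_univ T)]
    have h3 : (fun x : Fin k → ℤ => ch True) = fun _ => 1 := funext fun _ => ch_pos trivial
    rw [h2, h3, Ex_one h1', mul_one] at key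
    refine key.trans ?_
    rw [← Real.exp_nat_mul]
    refine Real.exp_le_exp.2 ?_
    have hg0 : (0 : ℝ) < 4 * (B : ℝ) ^ 2 + 1 := by positivity
    have hT4 : ((J.card : ℝ) - r) / (4 * B ^ 2 + 1) - 1 ≤ T.card := by
      rw [hg] at hT3
      push_cast at hT3
      rw [div_sub_one hg0.ne', div_le_iff₀ hg0]
      linarith
    nlinarith
  · -- the concentration of one coordinate
    have h2 := hp t (hT1 t ht).1 (-y - (b : ℤ) ^ (t : ℕ) / (2 * B))
    refine le_trans ?_ (h2.trans (by linarith [Real.add_one_le_exp (-η)]))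
    rw [sum_filter]
    refine sum_le_sum fun a ha => ?_
    have h3 := h0' t a ha
    by_cases h4 : |y + a| ≤ (b : ℤ) ^ (t : ℕ) / (2 * B)
    · rw [if_pos h4, if_pos]
      rw [abs_le] at h4
      refine ⟨by linarith [h4.1], ?_⟩
      have h5 : (b : ℤ) ^ (t : ℕ) / (2 * B) * (2 * B) ≤ (b : ℤ) ^ (t : ℕ) :=
        Int.ediv_mul_le _ (by positivity)
      have h6 : (B : ℤ) * (a - (-y - (b : ℤ) ^ (t : ℕ) / (2 * B))) ≤
          B * (2 * ((b : ℤ) ^ (t : ℕ) / (2 * B))) :=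
        mul_le_mul_of_nonneg_left (by linarith [h4.2]) (by positivity)
      linarith
    · rw [if_neg h4]
      split_ifs
      · exact h3
      · exact le_rfl
  · -- the scales are separated
    have hB0 : (0 : ℤ) < 2 * B := by positivity
    rw [Int.le_ediv_iff_mul_le hB0]
    have h2 : r + g ≤ (t : ℕ) := (hT1 t ht).2
    have h3 : ∑ u ∈ T.filter (fun u => u < t), (B : ℤ) * (b : ℤ) ^ (u : ℕ) ≤
        B * (b : ℤ) ^ ((t : ℕ) - g + 1) := by
      rw [← mul_sum]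
      refine mul_le_mul_of_nonneg_left ?_ (by positivity)
      have h4 : ∑ u ∈ T.filter (fun u => u < t), (b : ℤ) ^ (u : ℕ) =
          ((∑ j ∈ (T.filter (fun u => u < t)).map Fin.valEmbedding, b ^ j : ℕ) : ℤ) := by
        rw [sum_map]
        push_cast
        rfl
      rw [h4]
      have h5 := Nat.geomSum_lt (m := b) (n := (t : ℕ) - g + 1) hb
        (s := (T.filter (fun u => u < t)).map Fin.valEmbedding) (fun j hj => by
          obtain ⟨u, hu, rfl⟩ := mem_map.1 hj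
          obtain ⟨h6, h7⟩ := mem_filter.1 hu
          have h8 := hT2 t ht u h6 h7
          have h9 : Fin.valEmbedding u = (u : ℕ) := rfl
          omega)
      exact_mod_cast h5.le
    have h4 : (4 * B ^ 2 * b : ℤ) * (b : ℤ) ^ ((t : ℕ) - g) ≤ (b : ℤ) ^ (t : ℕ) := by
      have h5 : (b : ℤ) ^ (t : ℕ) = (b : ℤ) ^ g * (b : ℤ) ^ ((t : ℕ) - g) := by
        rw [← pow_add]
        congr 1
        omega
      rw [h5]
      refine mul_le_mul_of_nonneg_right ?_ (by positivity)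
      exact_mod_cast hbg
    have h5 : (4 * B : ℤ) * (b : ℤ) ^ r ≤ (b : ℤ) ^ (t : ℕ) := by
      refine le_trans ?_ h4
      have h6 : (b : ℤ) ^ r ≤ (b : ℤ) ^ ((t : ℕ) - g) := pow_le_pow_right₀ (by linarith) (by omega)
      have h7 : (4 * B : ℤ) ≤ 4 * B ^ 2 * b := by nlinarith
      exact mul_le_mul h7 h6 (by positivity) (by positivity)
    have h6 : (b : ℤ) ^ ((t : ℕ) - g + 1) = b * (b : ℤ) ^ ((t : ℕ) - g) := by
      rw [pow_succ, mul_comm]
    rw [h6] at h3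
    have h7 : (∑ u ∈ T.filter (fun u => u < t), (B : ℤ) * (b : ℤ) ^ (u : ℕ)) * (2 * B) ≤
        B * (b * (b : ℤ) ^ ((t : ℕ) - g)) * (2 * B) := mul_le_mul_of_nonneg_right h3 hB0.le
    linarith
  · refine congrArg (z + ·) (sum_congr rfl fun j hj => ?_)
    rw [Function.update_of_ne]
    rintro rfl
    exact (mem_sdiff.1 hj).2 ht

end Pool.Agent.J4H77.PC
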