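import Pool.Agent.J4H77.PC.Few

/-!
# Sums of independent random integers avoid the neighbourhoods of sparse sets: the union bound
-/

set_option autoImplicit false

namespace Pool.Agent.J4H77.PC

open Finset

theorem ch_nonneg (P : Prop) : 0 ≤ ch P := by
  unfold ch
  split_ifs <;> norm_num

theorem ch_exists {α : Type} (S : Finset α) (P : α → Prop) :
    ch (∃ i ∈ S, P i) ≤ ∑ i ∈ S, ch (P i) := by
  by_cases h : ∃ i ∈ S, P i
  · obtain ⟨i, hi, hP⟩ := h
    rw [ch_pos ⟨i, hi, hP⟩, ← ch_pos hP]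
    exact single_le_sum (f := fun i => ch (P i)) (fun j _ => ch_nonneg _) hi
  · rw [ch_neg h]
    exact sum_nonneg fun j _ => ch_nonneg _

theorem Ex_sum {ι : Type} [Fintype ι] [DecidableEq ι] {α : Type} (S : Finset α)
    (s : ι → Finset ℤ) (p : ι → ℤ → ℝ) (G : α → (ι → ℤ) → ℝ) :
    Ex s p (fun x => ∑ i ∈ S, G i x) = ∑ i ∈ S, Ex s p (G i) := by
  unfold Ex
  rw [sum_comm]
  exact sum_congr rfl fun x _ => by rw [mul_sum]

open Classical in
/-- **random sums avoid neighbourhoods of sparse sets** -/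
theorem few (b B : ℕ) (hb : 2 ≤ b) (hB : 1 ≤ B) (δ η : ℝ) (hδ : 0 < δ) (hη : 0 < η) :
    ∃ κ θ : ℝ, 0 < κ ∧ 0 < θ ∧ ∀ (Z : ℕ → Prop) (x₀ : ℕ),
      (∀ x : ℕ, x₀ ≤ x → (((range (x + 1)).filter Z).card : ℝ) ≤ (x : ℝ) ^ θ) →
      ∃ k₀ : ℕ, ∀ k : ℕ, k₀ ≤ k → ∀ J : Finset ℕ, (∀ j ∈ J, j < k) → δ * k ≤ J.card →
        ∀ Y : Finset ℤ, ((Y.card : ℝ) ≤ (b : ℝ) ^ (κ * k)) → (∀ y ∈ Y, |y| ≤ (B : ℤ) * (b : ℤ) ^ k) →
        ∀ (s : ℕ → Finset ℤ) (p : ℕ → ℤ → ℝ),
          (∀ j < k, (∀ x ∈ s j, 0 ≤ p j x ∧ |x| ≤ (B : ℤ) * (b : ℤ) ^ j) ∧ ∑ x ∈ s j, p j x = 1) →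
          (∀ j ∈ J, ∀ y : ℤ,
            ∑ x ∈ s j, (if y ≤ x ∧ (B : ℤ) * (x - y) ≤ (b : ℤ) ^ j then p j x else 0) ≤ 1 - η) →
          Ex (fun j : Fin k => s j) (fun j : Fin k => p j) (fun x => ch (∃ y ∈ Y, ∃ z : ℕ, Z z ∧
            |(z : ℝ) - ((y + ∑ j, x j : ℤ) : ℝ)| ≤ (b : ℝ) ^ (κ * k))) ≤ (b : ℝ) ^ (-(κ * k)) := by
  have hbr : (2 : ℝ) ≤ b := by exact_mod_cast hb
  have hBr : (1 : ℝ) ≤ B := by exact_mod_cast hB
  set L := Real.log b with hL
  have hL0 : 0 < L := Real.log_pos (by linarith)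
  set g : ℝ := 4 * (B : ℝ) ^ 2 + 1 with hg
  have hg0 : 0 < g := by positivity
  set a : ℝ := η * δ / g with ha
  have ha0 : 0 < a := by positivity
  set κ : ℝ := min (min (δ / 4) (a / (16 * L))) (1 / 2) with hκ
  have hκ0 : 0 < κ := lt_min (lt_min (by positivity) (by positivity)) (by norm_num)
  have hκ1 : κ ≤ δ / 4 := (min_le_left _ _).trans (min_le_left _ _)
  have hκ2 : κ ≤ a / (16 * L) := (min_le_left _ _).trans (min_le_right _ _)
  have hκ3 : κ ≤ 1 / 2 := min_le_right _ _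
  set θ : ℝ := a / (8 * L) with hθ
  have hθ0 : 0 < θ := by positivity
  refine ⟨κ, θ, hκ0, hθ0, fun Z x₀ hZ => ?_⟩
  set K : ℝ := θ * Real.log (3 * B) + η / g + η with hK
  obtain ⟨k₁, hk₁⟩ := exists_nat_ge (2 * K / a)
  refine ⟨k₁ + x₀ + 2, fun k hk J hJ hJc Y hY1 hY2 s p hs hp => ?_⟩
  have hkr : (k₁ : ℝ) ≤ k := by exact_mod_cast (by omega : k₁ ≤ k)
  have hk2 : (2 : ℝ) ≤ k := by exact_mod_cast (by omega : 2 ≤ k)
  set r : ℕ := ⌈κ * k⌉₊ with hr
  have hr1 : κ * k ≤ r := Nat.le_ceil _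
  have hr2 : (r : ℝ) ≤ κ * k + 1 := (Nat.ceil_lt_add_one (by positivity)).le
  have hrk : r ≤ k := by
    have h1 : (r : ℝ) ≤ k := by nlinarith
    exact_mod_cast h1
  have hbr1 : (b : ℝ) ^ (κ * k) ≤ (b : ℝ) ^ r := by
    rw [← Real.rpow_natCast]
    exact Real.rpow_le_rpow_of_exponent_le (by linarith) hr1
  set N : ℕ := 3 * B * b ^ k with hN
  have hNx : x₀ ≤ N := by
    have h1 : k < b ^ k := Nat.lt_pow_self (by omega)
    have h2 : b ^ k ≤ N := by
      rw [hN]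
      exact Nat.le_mul_of_pos_left _ (by omega)
    omega
  have h0' : ∀ j : Fin k, ∀ a ∈ s j, 0 ≤ p j a := fun j a ha => ((hs j j.2).1 a ha).1
  have step1 : Ex (fun j : Fin k => s j) (fun j : Fin k => p j) (fun x => ch (∃ y ∈ Y, ∃ z : ℕ, Z z ∧
      |(z : ℝ) - ((y + ∑ j, x j : ℤ) : ℝ)| ≤ (b : ℝ) ^ (κ * k))) ≤
      ∑ y ∈ Y, ∑ z ∈ (range (N + 1)).filter Z, Ex (fun j : Fin k => s j) (fun j : Fin k => p j)
        (fun x => ch (|(y - z) + ∑ j, x j| ≤ (b : ℤ) ^ r)) := by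
    have e : ∀ y ∈ Y, ∑ z ∈ (range (N + 1)).filter Z, Ex (fun j : Fin k => s j)
        (fun j : Fin k => p j) (fun x => ch (|(y - z) + ∑ j, x j| ≤ (b : ℤ) ^ r)) =
        Ex (fun j : Fin k => s j) (fun j : Fin k => p j) (fun x =>
          ∑ z ∈ (range (N + 1)).filter Z, ch (|(y - z) + ∑ j, x j| ≤ (b : ℤ) ^ r)) := fun y _ =>
      (Ex_sum _ _ _ fun (z : ℕ) (x : Fin k → ℤ) => ch (|(y - z) + ∑ j, x j| ≤ (b : ℤ) ^ r)).symm
    rw [sum_congr rfl e, ← Ex_sum]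
    refine Ex_mono h0' fun x hx => ?_
    refine le_trans (ch_mono (Q := ∃ y ∈ Y, ∃ z ∈ (range (N + 1)).filter Z,
      |(y - z) + ∑ j, x j| ≤ (b : ℤ) ^ r) ?_) ((ch_exists Y _).trans (sum_le_sum fun y _ =>
        ch_exists _ _))
    rintro ⟨y, hy, z, hz, hd⟩
    have hd2 : |(y - z) + ∑ j, x j| ≤ (b : ℤ) ^ r := by
      have h1 := hd.trans hbr1
      have h2 : |(((y - z) + ∑ j, x j : ℤ) : ℝ)| ≤ (b : ℝ) ^ r := by
        rw [abs_sub_comm] at h1
        have h3 : (((y - z) + ∑ j, x j : ℤ) : ℝ) = ((y + ∑ j, x j : ℤ) : ℝ) - z := by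
          push_cast
          ring
        rw [h3]
        exact h1
      exact_mod_cast h2
    refine ⟨y, hy, z, mem_filter.2 ⟨mem_range.2 ?_, hz⟩, hd2⟩
    have h1 : |∑ j, x j| ≤ (B : ℤ) * (b : ℤ) ^ k := by
      calc |∑ j, x j| ≤ ∑ j, |x j| := abs_sum_le_sum_abs _ _
        _ ≤ ∑ j : Fin k, (B : ℤ) * (b : ℤ) ^ (j : ℕ) := sum_le_sum fun j _ =>
          ((hs j j.2).1 _ (Fintype.mem_piFinset.1 hx j)).2
        _ = (B : ℤ) * ((∑ j ∈ range k, b ^ j : ℕ) : ℤ) := by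
          rw [← mul_sum, Fin.sum_univ_eq_sum_range (fun j => (b : ℤ) ^ j) k]
          push_cast
          rfl
        _ ≤ (B : ℤ) * (b : ℤ) ^ k := by
          refine mul_le_mul_of_nonneg_left ?_ (by positivity)
          have h5 := Nat.geomSum_lt (m := b) (n := k) hb (s := range k) fun j hj => mem_range.1 hj
          exact_mod_cast h5.le
    have h2 := hY2 y hy
    have h3 : (b : ℤ) ^ r ≤ (b : ℤ) ^ k := by
      exact_mod_cast Nat.pow_le_pow_right (by omega) hrk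
    have h4 : (b : ℤ) ^ k ≤ B * (b : ℤ) ^ k := by
      have : (1 : ℤ) ≤ B := by exact_mod_cast hB
      nlinarith [show (0 : ℤ) < (b : ℤ) ^ k by positivity]
    have h5 : (z : ℤ) ≤ 3 * B * (b : ℤ) ^ k := by
      have a1 := abs_le.1 h1
      have a2 := abs_le.1 h2
      have a3 := abs_le.1 hd2
      linarith [a1.2, a2.2, a3.1]
    have h6 : z ≤ N := by
      rw [hN]
      exact_mod_cast h5
    omega
  have step2 : ∑ y ∈ Y, ∑ z ∈ (range (N + 1)).filter Z, Ex (fun j : Fin k => s j)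
      (fun j : Fin k => p j) (fun x => ch (|(y - z) + ∑ j, x j| ≤ (b : ℤ) ^ r)) ≤
      (Y.card : ℝ) * ((((range (N + 1)).filter Z).card : ℝ) *
        Real.exp (-(η * (((J.card : ℝ) - r) / g - 1)))) := by
    rw [← nsmul_eq_mul, ← nsmul_eq_mul, ← sum_const, ← sum_const]
    exact sum_le_sum fun y _ => sum_le_sum fun z _ => one_point hb hB hη.le hJ hs hp _
  refine step1.trans (step2.trans ?_)
  have hNr : (N : ℝ) = 3 * B * (b : ℝ) ^ k := by
    rw [hN]
    push_cast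
    ring
  have hN1 : (((range (N + 1)).filter Z).card : ℝ) ≤ Real.exp (θ * (Real.log (3 * B) + k * L)) := by
    refine (hZ N hNx).trans (le_of_eq ?_)
    have hN0 : (0 : ℝ) < N := by rw [hNr]; positivity
    rw [Real.rpow_def_of_pos hN0, hNr, Real.log_mul (by positivity) (by positivity), Real.log_pow,
      mul_comm]
  have hY3 : (Y.card : ℝ) ≤ Real.exp (κ * k * L) := by
    refine hY1.trans (le_of_eq ?_)
    rw [Real.rpow_def_of_pos (by linarith), mul_comm]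
  have hE : Real.exp (-(η * (((J.card : ℝ) - r) / g - 1))) ≤
      Real.exp (-(η * ((δ * k - κ * k - 1) / g - 1))) := by
    refine Real.exp_le_exp.2 (neg_le_neg (mul_le_mul_of_nonneg_left ?_ hη.le))
    have h1 : (δ * k - κ * k - 1) / g ≤ ((J.card : ℝ) - r) / g :=
      div_le_div_of_nonneg_right (by linarith) hg0.le
    linarith
  have hfin : (b : ℝ) ^ (-(κ * k)) = Real.exp (-(κ * k * L)) := by
    rw [Real.rpow_def_of_pos (by linarith)]
    congr 1
    ring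
  rw [hfin]
  calc (Y.card : ℝ) * ((((range (N + 1)).filter Z).card : ℝ) *
        Real.exp (-(η * (((J.card : ℝ) - r) / g - 1))))
      ≤ Real.exp (κ * k * L) * (Real.exp (θ * (Real.log (3 * B) + k * L)) *
        Real.exp (-(η * ((δ * k - κ * k - 1) / g - 1)))) := by gcongr
    _ = Real.exp (κ * k * L + (θ * (Real.log (3 * B) + k * L) +
        -(η * ((δ * k - κ * k - 1) / g - 1)))) := by rw [Real.exp_add, Real.exp_add]
    _ ≤ Real.exp (-(κ * k * L)) := by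
      refine Real.exp_le_exp.2 ?_
      have hk0 : (0 : ℝ) ≤ k := by linarith
      have e1 : κ * L ≤ a / 16 := by
        calc κ * L ≤ a / (16 * L) * L := mul_le_mul_of_nonneg_right hκ2 hL0.le
          _ = a / 16 := by field_simp
      have e2 : θ * L = a / 8 := by rw [hθ]; field_simp
      have e3 : η * κ / g ≤ a / 4 := by
        rw [ha]
        have : η * κ / g ≤ η * (δ / 4) / g := by gcongr
        refine this.trans (le_of_eq ?_)
        ring
      have e4 : 2 * K ≤ a * k := by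
        have := hk₁.trans hkr
        rw [div_le_iff₀ ha0] at this
        linarith
      have e5 : η * ((δ * k - κ * k - 1) / g - 1) = a * k - η * κ / g * k - η / g - η := by
        rw [ha]
        field_simp
      rw [e5]
      have f1 : κ * L * k ≤ a / 16 * k := mul_le_mul_of_nonneg_right e1 hk0
      have f2 : θ * L * k = a / 8 * k := by rw [e2]
      have f3 : η * κ / g * k ≤ a / 4 * k := mul_le_mul_of_nonneg_right e3 hk0
      rw [hK] at e4
      nlinarith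

end Pool.Agent.J4H77.PC
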